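import Pool.Agent.Work.MP_898423_gt.Hedge.Card

set_option autoImplicit false

/-!
# A regular first countable cellular-Lindelof space with more than continuum many points

In ZFC, in every universe: there is a Hausdorff regular (even zero-dimensional) first countable
cellular-Lindelof space with exactly `𝔠⁺` points. This answers Q1 negatively.
-/

namespace Pool.Agent.Results.MP_898423_gt.RegularAboveContinuum

open Cardinal

/-- A cellular family in a space `X`: a family of pairwise disjoint non-empty open subsets. -/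
def IsCellularFamily {X : Type*} [TopologicalSpace X] (𝒰 : Set (Set X)) : Prop :=
  (∀ U ∈ 𝒰, IsOpen U ∧ U.Nonempty) ∧ ∀ U ∈ 𝒰, ∀ V ∈ 𝒰, U ≠ V → U ∩ V = ∅

/-- A space `X` is cellular-Lindelof if for every cellular family `𝒰` in `X` there is a subspace
`L` of `X` that is Lindelof in the subspace topology (every open cover of the space `L` has a
countable subcover) and meets every member of `𝒰`. -/
def IsCellularLindelof (X : Type*) [TopologicalSpace X] : Prop :=
  ∀ 𝒰 : Set (Set X), IsCellularFamily 𝒰 →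
    ∃ L : Set X, LindelofSpace L ∧ ∀ U ∈ 𝒰, (L ∩ U).Nonempty

/-- Transfer of the space to every universe. -/
lemma lift_space.{u} {X : Type} [TopologicalSpace X] [T3Space X] [FirstCountableTopology X]
    (hb : TopologicalSpace.IsTopologicalBasis {U : Set X | IsClopen U})
    (hL : ∀ 𝒰 : Set (Set X), (∀ U ∈ 𝒰, IsOpen U ∧ U.Nonempty) → 𝒰.PairwiseDisjoint id →
        ∃ L : Set X, IsSigmaCompact L ∧ ∀ U ∈ 𝒰, (L ∩ U).Nonempty)
    (hc : #X = Order.succ 𝔠) :
    ∃ (Y : Type u) (_ : TopologicalSpace Y),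
      T2Space Y ∧ RegularSpace Y ∧ FirstCountableTopology Y ∧
      TopologicalSpace.IsTopologicalBasis {U : Set Y | IsClopen U} ∧
      (∀ 𝒰 : Set (Set Y), IsCellularFamily 𝒰 →
        ∃ L : Set Y, IsSigmaCompact L ∧ ∀ U ∈ 𝒰, (L ∩ U).Nonempty) ∧
      #Y = Order.succ 𝔠 := by
  let e : ULift.{u} X ≃ₜ X := Homeomorph.ulift
  have hemb : Topology.IsEmbedding e := e.isEmbedding
  refine ⟨ULift.{u} X, inferInstance, hemb.t2Space, hemb.isInducing.regularSpace,
    hemb.isInducing.firstCountableTopology, ?_, ?_, ?_⟩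
  · refine TopologicalSpace.isTopologicalBasis_of_isOpen_of_nhds (fun U hU => hU.2) ?_
    intro p U hp hU
    have hU' : IsOpen (e '' U) := e.isOpenMap U hU
    obtain ⟨V, hV, hpV, hVU⟩ := hb.exists_subset_of_mem_open (Set.mem_image_of_mem e hp) hU'
    refine ⟨e ⁻¹' V, ⟨hV.1.preimage e.continuous, hV.2.preimage e.continuous⟩, hpV, ?_⟩
    intro q hq
    obtain ⟨q', hq', h⟩ := hVU hq
    rwa [← e.injective h]
  · intro 𝒰 h𝒰
    obtain ⟨L, hL1, hL2⟩ := hL ((fun U => e '' U) '' 𝒰)
      (by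
        rintro _ ⟨U, hU, rfl⟩
        exact ⟨e.isOpenMap U (h𝒰.1 U hU).1, (h𝒰.1 U hU).2.image e⟩)
      (by
        rintro _ ⟨U, hU, rfl⟩ _ ⟨V, hV, rfl⟩ hne
        have hUV : U ≠ V := fun h => hne (by rw [h])
        have h1 := h𝒰.2 U hU V hV hUV
        show Disjoint (e '' U) (e '' V)
        rw [Set.disjoint_image_iff e.injective]
        exact Set.disjoint_iff_inter_eq_empty.2 h1)
    refine ⟨e ⁻¹' L, ?_, fun U hU => ?_⟩
    · have h2 : e ⁻¹' L = e.symm '' L := (e.symm.image_eq_preimage_symm L).symm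
      rw [h2]
      exact hL1.image e.symm.continuous
    · obtain ⟨q, hq1, q', hq', rfl⟩ := hL2 _ ⟨U, hU, rfl⟩
      exact ⟨q', hq1, hq'⟩
  · rw [Cardinal.mk_uLift, hc, Cardinal.lift_succ, Cardinal.lift_continuum]

/-- In ZFC and in every universe there is a regular (Hausdorff and regular, even zero-dimensional)
first countable cellular-Lindelof space `X` with `|X| = 𝔠⁺ > 𝔠`; every cellular family of `X` is
even met by a sigma-compact subset. So the negated form of Q1 holds in ZFC. -/
theorem result.{u} :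
    ∃ (X : Type u) (_ : TopologicalSpace X),
      T2Space X ∧ RegularSpace X ∧ FirstCountableTopology X ∧ IsCellularLindelof X ∧
      Cardinal.continuum < Cardinal.mk X ∧
      Cardinal.mk X = Order.succ Cardinal.continuum ∧
      TopologicalSpace.IsTopologicalBasis {U : Set X | IsClopen U} ∧
      ∀ 𝒰 : Set (Set X), IsCellularFamily 𝒰 →
        ∃ L : Set X, IsSigmaCompact L ∧ ∀ U ∈ 𝒰, (L ∩ U).Nonempty := by
  obtain ⟨X, tX, h1, h2, h3, h4, h5⟩ := Pool.Agent.W898423.exists_space
  obtain ⟨Y, tY, g1, g2, g3, g4, g5, g6⟩ := lift_space.{u} h3 h4 h5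
  refine ⟨Y, tY, g1, g2, g3, ?_, ?_, g6, g4, g5⟩
  · intro 𝒰 h𝒰
    obtain ⟨L, hL, hL'⟩ := g5 𝒰 h𝒰
    exact ⟨L, isLindelof_iff_lindelofSpace.1 hL.isLindelof, hL'⟩
  · rw [g6]
    exact Order.lt_succ _

end Pool.Agent.Results.MP_898423_gt.RegularAboveContinuum
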